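import Pool.Agent.Lib.MP_688fd0_co.SQ4.Iface
import Pool.Agent.Lib.MP_688fd0_co.SQ3.H94.Ctx

/-!
TREEABS: a connected graph with at least three vertices is cut into paths of length two; if the number of vertices is
even one vertex (not a cut vertex) is left out.
-/

set_option autoImplicit false

namespace Pool.Agent.Lib.MP_688fd0_co.SQ4.H58

open Pool.Agent.Lib.MP_688fd0_co.OSF Pool.Agent.Lib.MP_688fd0_co.SQ2 Pool.Agent.Lib.MP_688fd0_co.SQ3

theorem treeAbs : TreeAbsS := by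
  intro Λ _ E₀ hE₀s hE₀c h3
  classical
  cases nonempty_fintype Λ
  let E : Λ → Λ → Prop := fun p q => p ≠ q ∧ E₀ p q
  have hEs : ∀ p q, E p q → E q p := fun p q h => ⟨h.1.symm, hE₀s _ _ h.2⟩
  have hEc : ∀ ρ : Λ → Λ → Prop, Equivalence ρ → (∀ x y, E x y → ρ x y) → ∀ x y, ρ x y := by
    intro ρ hρ hE
    refine hE₀c ρ hρ fun x y h => ?_
    by_cases hxy : x = y
    · rw [hxy]; exact hρ.refl _
    · exact hE _ _ ⟨hxy, h⟩
  obtain ⟨κ, hκ1, hκodd, hκ3, hκc⟩ := SQ3.H94.exists_class E hEs hEc (by rw [← Nat.card_eq_fintype_card]; exact h3)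
  let Λ' := {p : Λ // κ p = false}
  obtain ⟨dd, N, cc, ll, mm, rk, hT, hE, hd⟩ := SQ2.tree Λ' (fun p q => E p.1 q.1) (fun p q h => hEs _ _ h)
    (fun p hp => hp.1 rfl) hκc (by rw [← Nat.card_eq_fintype_card]; exact hκodd)
  let de : Λ → Bool := fun p => if h : κ p = false then dd ⟨p, h⟩ else false
  have hde : ∀ p : Λ', de p.1 = dd p := fun p => by
    show (if h : κ p.1 = false then dd ⟨p.1, h⟩ else false) = _
    rw [dif_pos p.2]
  -- `N > 0`
  have hN : 0 < N := by
    rcases Nat.eq_zero_or_pos N with h0 | h0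
    · exfalso
      subst h0
      have h1 : ∀ p q : Λ', p = q := hT.cov (fun p q => p = q)
        ⟨fun _ => rfl, fun h => h.symm, fun h h' => h.trans h'⟩ (fun i => i.elim0)
      have h2 : Nat.card Λ' ≤ 1 := by
        have : Subsingleton Λ' := ⟨h1⟩
        exact Finite.card_le_one_iff_subsingleton.2 this
      have h4 : 3 ≤ Nat.card Λ' := hκ3
      omega
    · exact h0
  -- all vertices occur
  have hcov : ∀ q : Λ', ∃ i, q = cc i ∨ q = ll i ∨ q = mm i := by
    intro q
    let U : Λ' → Prop := fun q => ∃ i, q = cc i ∨ q = ll i ∨ q = mm i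
    have h := hT.cov (fun p q => p = q ∨ (U p ∧ U q))
      ⟨fun _ => Or.inl rfl, fun h => h.elim (fun h => Or.inl h.symm) (fun h => Or.inr ⟨h.2, h.1⟩), by
        intro p q r h h'
        rcases h with rfl | h
        · exact h'
        · rcases h' with rfl | h'
          · exact Or.inr h
          · exact Or.inr ⟨h.1, h'.2⟩⟩
      (fun i => ⟨Or.inr ⟨⟨i, Or.inl rfl⟩, ⟨i, Or.inr (Or.inl rfl)⟩⟩,
        Or.inr ⟨⟨i, Or.inl rfl⟩, ⟨i, Or.inr (Or.inr rfl)⟩⟩⟩) q (cc ⟨0, hN⟩)
    rcases h with h | h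
    · exact ⟨⟨0, hN⟩, Or.inl h⟩
    · exact h.1
  refine ⟨de, κ, N, fun i => (cc i).1, fun i => (ll i).1, fun i => (mm i).1, rk, hN, fun i => (hE i).1.2,
    fun i => (hE i).2.2, fun i => ?_, fun i => ?_, fun i => ⟨(cc i).2, (ll i).2, (mm i).2⟩, hκ1, hκodd, ?_, ?_⟩
  · show de (ll i).1 = !de (cc i).1
    rw [hde, hde]; exact (hd i).1
  · show de (mm i).1 = !de (cc i).1
    rw [hde, hde]; exact (hd i).2
  · exact
      { cl := fun i h => hT.cl i (Subtype.ext h)
        cm := fun i h => hT.cm i (Subtype.ext h)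
        lm := fun i h => hT.lm i (Subtype.ext h)
        kl := fun i => (ll i).2.trans (cc i).2.symm
        km := fun i => (mm i).2.trans (cc i).2.symm
        two := fun i => by
          obtain ⟨p, h1, h2⟩ := hT.two i
          refine ⟨fun y => ∃ h : κ y = false, p ⟨y, h⟩, ?_, ?_⟩
          · rcases h1 with ⟨h3, h4⟩ | ⟨h3, h4⟩ | ⟨h3, h4⟩
            · exact Or.inl ⟨⟨(cc i).2, h3⟩, ⟨(ll i).2, h4⟩⟩
            · exact Or.inr (Or.inl ⟨⟨(cc i).2, h3⟩, ⟨(mm i).2, h4⟩⟩)
            · exact Or.inr (Or.inr ⟨⟨(ll i).2, h3⟩, ⟨(mm i).2, h4⟩⟩)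
          · rintro y ⟨hy, hpy⟩ i' hi' h
            refine h2 ⟨y, hy⟩ hpy i' hi' ?_
            rcases h with h | h | h
            · exact Or.inl (Subtype.ext h)
            · exact Or.inr (Or.inl (Subtype.ext h))
            · exact Or.inr (Or.inr (Subtype.ext h))
        cov := fun ρ hρ h p q hpq => by
          rcases Bool.eq_false_or_eq_true (κ p) with h1 | h1
          · have h2 : p = q := hκ1 _ _ h1 (hpq ▸ h1)
            rw [h2]; exact hρ.refl _
          · have h2 : κ q = false := hpq ▸ h1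
            exact hT.cov (fun p q => ρ p.1 q.1) ⟨fun _ => hρ.refl _, fun h => hρ.symm h,
              fun h h' => hρ.trans h h'⟩ (fun i => h i) ⟨p, h1⟩ ⟨q, h2⟩ }
  · intro y hy
    obtain ⟨i, h⟩ := hcov ⟨y, hy⟩
    refine ⟨i, ?_⟩
    rcases h with h | h | h
    · exact Or.inl (congrArg Subtype.val h)
    · exact Or.inr (Or.inl (congrArg Subtype.val h))
    · exact Or.inr (Or.inr (congrArg Subtype.val h))

end Pool.Agent.Lib.MP_688fd0_co.SQ4.H58
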