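import Pool.Agent.Lib.MP_688fd0_co.SQ4.IfaceV

/-!
Rows EQX and ALG of chapter V (type C1, plan P1).

`affw V l` is the affine map of the word `l`. `FixI`: a point fixed by the words of the inner rungs in plain positions and in
the positions conjugated by one pair. ALG: such a point, points for the cross rungs of all effective reflections and good
vertical letters exclude `KapV`.
-/

set_option autoImplicit false

namespace Pool.Agent.Lib.MP_688fd0_co.SQ4.CV.H58

open Pool.Agent.Lib.MP_688fd0_co.OSF Pool.Agent.Lib.MP_688fd0_co.SQ2 Pool.Agent.Lib.MP_688fd0_co.SQ3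
open Pool.Agent.Lib.MP_688fd0_co.SQ4 Pool.Agent.Lib.MP_688fd0_co.SQ4.CV

section aff

variable {Q : Type} [Group Q] {B : Lb.{0, 0} Q} {F : Type} [Field F] (V : Vd B F)

theorem affw_append (w w' : List B.L) (y : F) : affw V (w ++ w') y = affw V w (affw V w' y) := by
  induction w with
  | nil => rfl
  | cons l w ih =>
    show V.n l + V.chi (B.q l) * affw V (w ++ w') y = V.n l + V.chi (B.q l) * affw V w (affw V w' y)
    rw [ih]

theorem affw_cons (l : B.L) (w : List B.L) (y : F) : affw V (l :: w) y = affw V [l] (affw V w y) := rfl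

theorem affw_single (l : B.L) (y : F) : affw V [l] y = V.n l + V.chi (B.q l) * y := rfl

theorem affw_inv_self (l : B.L) (y : F) : affw V [B.inv l] (affw V [l] y) = y := by
  rw [affw_single, affw_single, V.n_inv, B.q_inv]
  have := chi_inv_mul V (B.q l)
  linear_combination y * this

theorem affw_self_inv (l : B.L) (y : F) : affw V [l] (affw V [B.inv l] y) = y := by
  rw [affw_single, affw_single, V.n_inv, B.q_inv]
  have := chi_inv_mul V (B.q l)
  linear_combination (y - V.n l) * this

theorem affw_rev (w : List B.L) (y : F) : affw V (B.rev w) (affw V w y) = y := by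
  induction w generalizing y with
  | nil => rfl
  | cons l w ih =>
    rw [rev_cons, affw_append, affw_cons V l w y, affw_inv_self, ih]

theorem affw_rev' (w : List B.L) (y : F) : affw V w (affw V (B.rev w) y) = y := by
  induction w generalizing y with
  | nil => rfl
  | cons l w ih =>
    rw [rev_cons, affw_append, affw_cons V l w, ih, affw_self_inv]

theorem flat_append (L L' : List (B.L × B.L)) : flat (L ++ L') = flat L ++ flat L' := by
  induction L with
  | nil => rfl
  | cons p L ih =>
    show p.1 :: B.inv p.2 :: flat (L ++ L') = p.1 :: B.inv p.2 :: (flat L ++ flat L')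
    rw [ih]

theorem affw_sub (w : List B.L) (x : Q) (y y' : F) :
    V.chi x * (affw V w y - affw V w y') = V.chi (B.fin x w) * (y - y') := by
  induction w generalizing x with
  | nil => rfl
  | cons l w ih =>
    show V.chi x * (V.n l + V.chi (B.q l) * affw V w y - (V.n l + V.chi (B.q l) * affw V w y')) =
      V.chi (B.fin (x * B.q l) w) * (y - y')
    rw [← ih (x * B.q l), map_mul]; ring

theorem affw_inj (w : List B.L) {y y' : F} (h : affw V w y = affw V w y') : y = y' := by
  rw [← affw_rev V w y, h, affw_rev]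

end aff

section alg

variable {Q : Type} [Group Q] {B : Lb.{0, 0} Q} {a b : B.L} {eps : Q →* ℤˣ} {D : Subgroup Q} {z : Q} {k : ℕ}
  {F : Type} [Field F]

/-- `P` is fixed by the words of the inner rungs. -/
structure FixI (H : HypC B a b eps D z k) (V : Vd B F) (P : F) : Prop where
  plain : ∀ t, eps (B.q t) = 1 → ∀ n < 2 * k, affw V (IW H.up [] n t) P = P
  conj : ∀ t, eps (B.q t) = 1 → ∀ p, Nr1 B a b D p →
    affw V (IW H.up (p :: List.replicate (k - 1) (a, b)) 0 t) P = P

variable (H : HypC B a b eps D z k) (V : Vd B F)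

include H in
theorem str_two_mul (i : ℕ) {x : Q} (hx : eps x = 1) : H.up.str (2 * i) x = flat (List.replicate i (a, b)) := by
  induction i generalizing x with
  | zero => rfl
  | succ i ih =>
    have h1 : eps (x * B.q a) ≠ 1 := by rw [map_mul, hx, H.ea]; decide
    show H.up.str (2 * i + 1 + 1) x = a :: B.inv b :: flat (List.replicate i (a, b))
    rw [Up.str_succ, Up.str_succ, H31.C_U_one H hx, H31.C_up H, if_pos hx, H31.C_up H, if_neg h1,
      H31.C_U_neg H h1, ih]
    rw [map_mul, map_mul, map_inv, hx, H.ea, H.eb]; decide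

/-- The maps `a`, `b` and `w`. -/
theorem affw_w (y : F) : affw V [a, B.inv b] y = affw V [a] (affw V [B.inv b] y) := rfl

include H in
theorem str_one : H.up.str 1 (1 : Q) = [a] := by
  show [H.up.up 1] = [a]
  rw [H31.C_up H, if_pos (map_one _)]

include H in
theorem str_two : H.up.str 2 (1 : Q) = [a, B.inv b] := str_two_mul H 1 (map_one _)

/-- Conjugation. -/
theorem fix_conj {t : B.L} (ht : V.chi (B.q t) ≠ 1) {P : F} (h0 : affw V [t] P = P) (w : List B.L)
    (h : affw V (w ++ t :: B.rev w) P = P) : affw V w P = P := by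
  have h1 : affw V [t] (affw V (B.rev w) P) = affw V (B.rev w) P := by
    rw [affw_append, affw_cons] at h
    refine affw_inj V w ?_
    rw [h, affw_rev']
  have h2 : affw V (B.rev w) P = P := by
    rw [affw_single] at h0 h1
    have h3 : (V.chi (B.q t) - 1) * (affw V (B.rev w) P - P) = 0 := by linear_combination h1 - h0
    rcases mul_eq_zero.1 h3 with h4 | h4
    · exact absurd (sub_eq_zero.1 h4) ht
    · exact sub_eq_zero.1 h4
  rw [← h2, affw_rev', h2]

include H in
theorem two_le_k {t : B.L} (h1 : eps (B.q t) = 1) (ht : V.chi (B.q t) ≠ 1) : 2 ≤ k := by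
  by_contra hk
  have hk1 : k = 1 := by have := H.kpos; omega
  have h2 : Nat.card D = 1 := Nat.dvd_one.1 (hk1 ▸ H.card)
  have h3 : B.q t ∈ D := H.near t h1
  have h4 : D = ⊥ := Subgroup.card_eq_one.1 h2
  rw [h4, Subgroup.mem_bot] at h3
  exact ht (by rw [h3, map_one])

theorem affw_flat_replicate {P : F} (h : affw V [a, B.inv b] P = P) (i : ℕ) :
    affw V (flat (List.replicate i (a, b))) P = P := by
  induction i with
  | zero => rfl
  | succ i ih =>
    show affw V ([a, B.inv b] ++ flat (List.replicate i (a, b))) P = P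
    rw [affw_append, ih, h]

/-- `SI` is contained in `D`. -/
theorem EI_le (H : HypC B a b eps D z k) : EI B a b eps D z k ≤ D := by
  unfold EI
  rw [Subgroup.closure_le]
  rintro q ⟨m, hm, n, t, ht, rfl⟩
  exact mem_conj H (H.near t ht) _

theorem chi_EI (H : HypC B a b eps D z k) (hrot : ∀ t, eps (B.q t) = 1 → V.chi (B.q t) = 1) {q : Q}
    (hq : q ∈ EI B a b eps D z k) : V.chi q = 1 := by
  refine Subgroup.closure_induction ?_ (map_one _) (fun x y _ _ hx hy => by rw [map_mul, hx, hy, mul_one])
    (fun x _ hx => ?_) hq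
  · rintro q ⟨m, hm, n, t, ht, rfl⟩
    rw [map_mul, map_mul, hrot t ht, mul_one, ← map_mul, mul_inv_cancel, map_one]
  · have := chi_inv_mul V x
    rw [hx, mul_one] at this
    exact this

theorem mem_of_mul_inv (H : HypC B a b eps D z k) {s c : B.L} (h : B.q s * (B.q c)⁻¹ ∈ D) : (B.q c)⁻¹ * B.q s ∈ D := by
  have : (B.q c)⁻¹ * B.q s = (B.q c)⁻¹ * (B.q s * (B.q c)⁻¹) * ((B.q c)⁻¹)⁻¹ := by group
  rw [this]
  exact mem_conj H h _

/-- All labels fix `P` if some rotation has `chi ≠ 1`. -/
theorem alg_fix {t₀ : B.L} (h₀ : eps (B.q t₀) = 1) (ht₀ : V.chi (B.q t₀) ≠ 1) {P : F} (hP : FixI H V P)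
    (hcr : ∀ s, EffL B a b eps D z k s → ∃ (P₀ P₁ : F) (i j : ℕ), FixI H V P₀ ∧ FixI H V P₁ ∧
      ∀ e < 2, affw V (CW H.up (i + e) (j + e) s) P₁ = P₀) (l : B.L) : affw V [l] P = P := by
  have hk := two_le_k H V h₀ ht₀
  have hk0 := H.kpos
  have hu : ∀ {P' : F}, FixI H V P' → affw V [t₀] P' = P' := fun hP' => hP'.plain t₀ h₀ 0 (by omega)
  have ht : affw V [t₀] P = P := hu hP
  have huni : ∀ {P' : F}, FixI H V P' → P' = P := fun {P'} hP' => by
    have h1 := hu hP'
    rw [affw_single] at h1 ht
    have h3 : (V.chi (B.q t₀) - 1) * (P' - P) = 0 := by linear_combination h1 - ht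
    rcases mul_eq_zero.1 h3 with h4 | h4
    · exact absurd (sub_eq_zero.1 h4) ht₀
    · exact sub_eq_zero.1 h4
  have ha : affw V [a] P = P := by
    refine fix_conj V ht₀ ht [a] ?_
    have h1 := hP.plain t₀ h₀ 1 (by omega)
    unfold IW at h1
    rw [str_one H] at h1
    exact h1
  have hw : affw V [a, B.inv b] P = P := by
    refine fix_conj V ht₀ ht [a, B.inv b] ?_
    have h1 := hP.plain t₀ h₀ 2 (by omega)
    unfold IW at h1
    rw [str_two H] at h1
    simpa [flat, Lb.rev] using h1
  have hb' : affw V [B.inv b] P = P := by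
    refine affw_inj V [a] ?_
    rw [ha]
    exact hw
  have hrep := affw_flat_replicate V hw
  have hpair : ∀ p, Nr1 B a b D p → affw V (flat [p]) P = P := by
    intro p hp
    have h1 := hP.conj t₀ h₀ p hp
    have h2 := fix_conj V ht₀ ht (flat (p :: List.replicate (k - 1) (a, b))) (by
      unfold IW at h1
      simpa [Lb.rev, Up.str_zero] using h1)
    have h3 : flat (p :: List.replicate (k - 1) (a, b)) = flat [p] ++ flat (List.replicate (k - 1) (a, b)) := rfl
    rw [h3, affw_append, hrep] at h2
    exact h2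
  have hna : (B.q a)⁻¹ * B.q a ∈ D := by rw [inv_mul_cancel]; exact D.one_mem
  have hnb : (B.q b)⁻¹ * B.q b ∈ D := by rw [inv_mul_cancel]; exact D.one_mem
  have hnearA : ∀ s : B.L, (B.q a)⁻¹ * B.q s ∈ D → affw V [s] P = P := by
    intro s hs
    have h1 := hpair (s, b) ⟨⟨hs, hnb⟩, Or.inr rfl⟩
    have h2 : affw V [s] (affw V [B.inv b] P) = P := h1
    rw [hb'] at h2
    exact h2
  have hnearB : ∀ s : B.L, (B.q b)⁻¹ * B.q s ∈ D → affw V [s] P = P := by
    intro s hs
    have h1 := hpair (a, s) ⟨⟨hna, hs⟩, Or.inl rfl⟩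
    have h2 : affw V [a] (affw V [B.inv s] P) = P := h1
    have h3 : affw V [B.inv s] P = P := affw_inj V [a] (h2.trans ha.symm)
    have h4 := affw_self_inv V s P
    rw [h3] at h4
    exact h4
  rcases Int.units_eq_one_or (eps (B.q l)) with hl | hl
  · exact hP.plain l hl 0 (by omega)
  · by_cases he : EffL B a b eps D z k l
    · obtain ⟨P₀, P₁, i, j, h1, h2, h3⟩ := hcr l he
      have h4 := h3 0 (by omega)
      rw [huni h1, huni h2] at h4
      have h5 : affw V (H.up.str (2 * i) 1) P = P := by rw [str_two_mul H i (map_one _)]; exact hrep i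
      have h6 : affw V (H.up.str (2 * j + 1) 1) P = P := by
        rw [Up.str_succ', affw_append]
        have h7 : eps ((H.up.U ^ (2 * j)) 1) = 1 := by
          rw [H31.C_U_pow H (map_one _), map_mul, map_one, map_pow, map_mul, map_inv, H.ea, H.eb]
          simp
        have h8 : [H.up.up ((H.up.U ^ (2 * j)) 1)] = [a] := by rw [H31.C_up H, if_pos h7]
        rw [h8, ha, str_two_mul H j (map_one _)]
        exact hrep j
      unfold CW at h4
      rw [add_zero, add_zero, affw_append, affw_cons] at h4
      have h9 : affw V (B.rev (H.up.str (2 * j + 1) 1)) P = P := by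
        have h10 := affw_rev V (H.up.str (2 * j + 1) 1) P
        rw [h6] at h10
        exact h10
      rw [h9] at h4
      exact affw_inj V (H.up.str (2 * i) 1) (h4.trans h5.symm)
    · have h1 : B.q l * (B.q a)⁻¹ ∈ EI B a b eps D z k ∨ B.q l * (B.q b)⁻¹ ∈ EI B a b eps D z k := by
        by_contra hcon
        rw [not_or] at hcon
        exact he ⟨hl, hcon.1, hcon.2⟩
      rcases h1 with h1 | h1
      · exact hnearA l (mem_of_mul_inv H (EI_le H h1))
      · exact hnearB l (mem_of_mul_inv H (EI_le H h1))

/-- If two consecutive cross rungs have the same effect then `w` and `σ s` commute. -/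
theorem kapW_of_cross (s : B.L) {P₀ P₁ : F} {i j : ℕ} (h0 : affw V (CW H.up i j s) P₁ = P₀)
    (h1 : affw V (CW H.up (i + 1) (j + 1) s) P₁ = P₀) : kapW V a b s = 0 := by
  have hstr : ∀ j : ℕ, H.up.str (2 * j + 1) (1 : Q) = flat (List.replicate j (a, b)) ++ [a] := fun j => by
    have h7 : eps ((H.up.U ^ (2 * j)) 1) = 1 := by
      rw [H31.C_U_pow H (map_one _), map_mul, map_one, map_pow, map_mul, map_inv, H.ea, H.eb]
      simp
    rw [Up.str_succ', H31.C_up H, if_pos h7, str_two_mul H j (map_one _)]
  have hflat : ∀ j : ℕ, flat (List.replicate (j + 1) (a, b)) = flat (List.replicate j (a, b)) ++ [a, B.inv b] := by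
    intro j
    rw [List.replicate_succ', flat_append]; rfl
  have hrev : ∀ (l l' : List B.L) (y : F), affw V (B.rev (l ++ l')) y = affw V (B.rev l') (affw V (B.rev l) y) := by
    intro l l' y
    refine affw_inj V (l ++ l') ?_
    rw [affw_rev', affw_append, affw_rev', affw_rev']
  set y₁ := affw V (B.rev (flat (List.replicate j (a, b)))) P₁ with hy₁
  set y := affw V (B.rev [a, B.inv b]) y₁ with hy
  have hw : affw V [a, B.inv b] y = y₁ := affw_rev' V _ _
  have e0 : affw V (CW H.up i j s) P₁ =
      affw V (flat (List.replicate i (a, b))) (affw V [s] (affw V [B.inv a] y₁)) := by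
    unfold CW
    rw [hstr, str_two_mul H i (map_one _), affw_append, affw_cons, hrev]
    rfl
  have e1 : affw V (CW H.up (i + 1) (j + 1) s) P₁ =
      affw V (flat (List.replicate i (a, b))) (affw V [a, B.inv b] (affw V [s] (affw V [B.inv a] y))) := by
    unfold CW
    rw [hstr, str_two_mul H (i + 1) (map_one _), hflat, hflat, affw_append, affw_append, affw_cons V s, hrev, hrev]
    rfl
  have h2 : affw V [s] (affw V [B.inv a] y₁) = affw V [a, B.inv b] (affw V [s] (affw V [B.inv a] y)) := by
    refine affw_inj V (flat (List.replicate i (a, b))) ?_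
    rw [← e0, ← e1, h0, h1]
  rw [← hw] at h2
  have e2 : ∀ y : F, affw V [a, B.inv b] y = V.n a + V.chi (B.q a) * (V.n (B.inv b) + V.chi (B.q (B.inv b)) * y) :=
    fun _ => rfl
  rw [e2, e2] at h2
  simp only [affw_single] at h2
  have ea : V.n (B.inv a) = -(V.chi (B.q a)⁻¹ * V.n a) := V.n_inv a
  have eb : V.n (B.inv b) = -(V.chi (B.q b)⁻¹ * V.n b) := V.n_inv b
  rw [ea, eb, B.q_inv, B.q_inv] at h2
  unfold kapW
  rw [map_mul, map_mul]
  linear_combination (-1 : F) * h2

/-- ALG. -/
theorem alg (hg : GoodL a b D V) {P : F} (hP : FixI H V P)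
    (hcr : ∀ s, EffL B a b eps D z k s → ∃ (P₀ P₁ : F) (i j : ℕ), FixI H V P₀ ∧ FixI H V P₁ ∧
      ∀ e < 2, affw V (CW H.up (i + e) (j + e) s) P₁ = P₀) : ¬ KapV V a b eps := by
  have hk0 := H.kpos
  have hna : (B.q a)⁻¹ * B.q a ∈ D := by rw [inv_mul_cancel]; exact D.one_mem
  have hnb : (B.q b)⁻¹ * B.q b ∈ D := by rw [inv_mul_cancel]; exact D.one_mem
  have hone : ∀ t, eps (B.q t) = 1 → affw V [t] P = P := fun t ht => hP.plain t ht 0 (by omega)
  rintro (⟨⟨t₀, h₀, ht₀⟩, s, t, hst⟩ | ⟨t, h1, h2, h3⟩ | ⟨s, h1, h2⟩)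
  · have hs := alg_fix H V h₀ ht₀ hP hcr s
    have ht := alg_fix H V h₀ ht₀ hP hcr t
    rw [affw_single] at hs ht
    refine hst ?_
    unfold Vd.kap
    linear_combination (V.chi (B.q s) - 1) * ht - (V.chi (B.q t) - 1) * hs
  · have h4 := hone t h1
    rw [affw_single, h2] at h4
    exact h3 (by linear_combination h4)
  · by_cases hrot : ∀ t, eps (B.q t) = 1 → V.chi (B.q t) = 1
    · by_cases he : EffL B a b eps D z k s
      · obtain ⟨P₀, P₁, i, j, -, -, h3⟩ := hcr s he
        exact h2 (kapW_of_cross H V s (h3 0 (by omega)) (h3 1 (by omega)))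
      · have h3 : B.q s * (B.q a)⁻¹ ∈ EI B a b eps D z k ∨ B.q s * (B.q b)⁻¹ ∈ EI B a b eps D z k := by
          by_contra hcon
          rw [not_or] at hcon
          exact he ⟨h1, hcon.1, hcon.2⟩
        refine h2 ?_
        have ha := chi_inv_mul V (B.q a)
        have hb := chi_inv_mul V (B.q b)
        have hss := chi_inv_mul V (B.q s)
        have ha0 := chi_ne V (B.q a)
        rcases h3 with h3 | h3
        · have h4 := mem_of_mul_inv H (EI_le H h3)
          have h5 := chi_EI V H hrot h3
          have h6 : tp B a b (s, b) = B.q s * (B.q a)⁻¹ := by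
            unfold tp wC; group
          have h7 := hg (s, b) ⟨⟨h4, hnb⟩, Or.inr rfl⟩ (by rw [h6]; exact h5)
          have h8 : V.chi (B.q s) = V.chi (B.q a) := by
            rw [map_mul] at h5
            linear_combination (V.chi (B.q a)) * h5 - (V.chi (B.q s)) * ha
          have h9 : V.chi 1 * V.n s + (V.chi (1 * B.q s) * V.n (B.inv b) + 0) =
            V.chi 1 * V.n a + (V.chi (1 * B.q a) * V.n (B.inv b) + 0) := h7
          simp only [map_one, one_mul] at h9
          rw [h8] at h9
          unfold kapW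
          rw [h5]
          have h10 : V.n s = V.n a := by linear_combination h9
          rw [h10]; ring
        · have h4 := mem_of_mul_inv H (EI_le H h3)
          have h5 := chi_EI V H hrot h3
          have h8 : V.chi (B.q s) = V.chi (B.q b) := by
            rw [map_mul] at h5
            linear_combination (V.chi (B.q b)) * h5 - (V.chi (B.q s)) * hb
          have h8' : V.chi (B.q s)⁻¹ = V.chi (B.q b)⁻¹ := by
            refine mul_right_cancel₀ (chi_ne V (B.q b)) ?_
            rw [hb, ← h8, hss]
          have h6 : V.chi (tp B a b (a, s)) = 1 := by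
            unfold tp wC
            rw [mul_inv_rev, inv_inv, map_mul, map_mul, map_mul, h8']
            linear_combination (V.chi (B.q a)⁻¹ * V.chi (B.q a)) * hb + ha
          have h7 := hg (a, s) ⟨⟨hna, h4⟩, Or.inl rfl⟩ h6
          have h9 : V.chi 1 * V.n a + (V.chi (1 * B.q a) * V.n (B.inv s) + 0) =
            V.chi 1 * V.n a + (V.chi (1 * B.q a) * V.n (B.inv b) + 0) := h7
          simp only [map_one, one_mul] at h9
          rw [V.n_inv, V.n_inv, h8'] at h9
          have h11 : V.chi (B.q b) ≠ 0 := chi_ne V _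
          have h10 : V.n s = V.n b := by
            have h12 : V.chi (B.q a) * (V.n s - V.n b) = 0 := by
              linear_combination (-V.chi (B.q b)) * h9 - V.chi (B.q a) * (V.n s - V.n b) * hb
            rcases mul_eq_zero.1 h12 with h13 | h13
            · exact absurd h13 ha0
            · exact sub_eq_zero.1 h13
          unfold kapW
          rw [map_mul, map_mul, h10, h8]
          linear_combination (-(V.n a - V.n b) * V.chi (B.q b)⁻¹ * V.chi (B.q b)) * ha - (V.n a - V.n b) * hb
    · push Not at hrot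
      obtain ⟨t₀, h₀, ht₀⟩ := hrot
      have hs := alg_fix H V h₀ ht₀ hP hcr s
      have ha := alg_fix H V h₀ ht₀ hP hcr a
      have hb := alg_fix H V h₀ ht₀ hP hcr b
      rw [affw_single] at hs ha hb
      have ea := chi_inv_mul V (B.q a)
      have eb := chi_inv_mul V (B.q b)
      refine h2 ?_
      unfold kapW
      rw [map_mul, map_mul]
      have e1 : V.n s - V.chi (B.q s) * V.chi (B.q a)⁻¹ * V.n a = (1 - V.chi (B.q s) * V.chi (B.q a)⁻¹) * P := by
        linear_combination hs - V.chi (B.q s) * V.chi (B.q a)⁻¹ * ha + V.chi (B.q s) * P * ea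
      have e2 : V.n a - V.chi (B.q a) * V.chi (B.q b)⁻¹ * V.n b = (1 - V.chi (B.q a) * V.chi (B.q b)⁻¹) * P := by
        linear_combination ha - V.chi (B.q a) * V.chi (B.q b)⁻¹ * hb + V.chi (B.q a) * P * eb
      rw [e1, e2]
      ring

end alg

end Pool.Agent.Lib.MP_688fd0_co.SQ4.CV.H58
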