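import Pool.Agent.Lib.MP_688fd0_co.SQ4.H58.Eqx

/-!
Case N of chapter V (type C1, plan P1): if `chi` is constant along the rungs then `chi = 1` on the kernel of `eps`.
-/

set_option autoImplicit false

namespace Pool.Agent.Lib.MP_688fd0_co.SQ4.CV.H58

open Pool.Agent.Lib.MP_688fd0_co.OSF Pool.Agent.Lib.MP_688fd0_co.SQ2 Pool.Agent.Lib.MP_688fd0_co.SQ3
open Pool.Agent.Lib.MP_688fd0_co.SQ4 Pool.Agent.Lib.MP_688fd0_co.SQ4.CV

section

variable {Q : Type} [Group Q] {B : Lb.{0, 0} Q} {a b : B.L} {eps : Q →* ℤˣ} {D : Subgroup Q} {z : Q} {k : ℕ}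
  {F : Type} [Field F]

/-- If `chi w = 1`, `chi t = 1` for the rotations and `chi (σ s) = 1` for the effective reflections then `chi = 1` on the
kernel of `eps`. -/
theorem chi_ker (H : HypC B a b eps D z k) (V : Vd B F) (hw : V.chi (wC B a b) = 1)
    (hrot : ∀ t, eps (B.q t) = 1 → V.chi (B.q t) = 1)
    (heff : ∀ s, EffL B a b eps D z k s → V.chi (sg B a s) = 1) {q : Q} (hq : eps q = 1) : V.chi q = 1 := by
  have ha := chi_inv_mul V (B.q a)
  have hb := chi_inv_mul V (B.q b)
  unfold wC at hw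
  rw [map_mul] at hw
  have hba : V.chi (B.q b) = V.chi (B.q a) := by
    linear_combination V.chi (B.q a) * hb - V.chi (B.q b) * hw
  have href : ∀ s, eps (B.q s) = -1 → V.chi (B.q s) = V.chi (B.q a) := by
    intro s hs
    by_cases he : EffL B a b eps D z k s
    · have h1 := heff s he
      unfold sg at h1
      rw [map_mul] at h1
      linear_combination V.chi (B.q a) * h1 - V.chi (B.q s) * ha
    · have h3 : B.q s * (B.q a)⁻¹ ∈ EI B a b eps D z k ∨ B.q s * (B.q b)⁻¹ ∈ EI B a b eps D z k := by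
        by_contra hcon
        rw [not_or] at hcon
        exact he ⟨hs, hcon.1, hcon.2⟩
      rcases h3 with h3 | h3
      · have h5 := chi_EI V H hrot h3
        rw [map_mul] at h5
        linear_combination V.chi (B.q a) * h5 - V.chi (B.q s) * ha
      · have h5 := chi_EI V H hrot h3
        rw [map_mul] at h5
        rw [← hba]
        linear_combination V.chi (B.q b) * h5 - V.chi (B.q s) * hb
  have h2 : V.chi (B.q a) * V.chi (B.q a) = 1 := by
    have h3 : eps (B.q (B.inv a)) = -1 := by rw [B.q_inv, map_inv, H.ea]; decide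
    have h4 := href _ h3
    rw [B.q_inv] at h4
    rw [h4] at ha
    exact ha
  have key : ∀ q ∈ Subgroup.closure (Set.range B.q), (eps q = 1 → V.chi q = 1) ∧ (eps q = -1 → V.chi q = V.chi (B.q a)) := by
    intro q hq
    refine Subgroup.closure_induction (p := fun q _ => (eps q = 1 → V.chi q = 1) ∧
      (eps q = -1 → V.chi q = V.chi (B.q a))) ?_ ?_ ?_ ?_ hq
    · rintro q ⟨l, rfl⟩
      exact ⟨hrot l, href l⟩
    · refine ⟨fun _ => map_one _, fun h => ?_⟩
      rw [map_one] at h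
      exact absurd h (by decide)
    · intro x y _ _ hx hy
      rw [map_mul, map_mul]
      rcases Int.units_eq_one_or (eps x) with h1 | h1 <;> rcases Int.units_eq_one_or (eps y) with h3 | h3
      · rw [h1, h3, hx.1 h1, hy.1 h3]
        exact ⟨fun _ => one_mul _, fun h => absurd h (by decide)⟩
      · rw [h1, h3, hx.1 h1, hy.2 h3]
        exact ⟨fun h => absurd h (by decide), fun _ => one_mul _⟩
      · rw [h1, h3, hx.2 h1, hy.1 h3]
        exact ⟨fun h => absurd h (by decide), fun _ => mul_one _⟩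
      · rw [h1, h3, hx.2 h1, hy.2 h3]
        exact ⟨fun _ => h2, fun h => absurd h (by decide)⟩
    · intro x _ hx
      have h1 := chi_inv_mul V x
      refine ⟨fun h => ?_, fun h => ?_⟩
      · rw [map_inv] at h
        have h3 : eps x = 1 := inv_eq_one.1 h
        rw [hx.1 h3, mul_one] at h1
        exact h1
      · rw [map_inv] at h
        have h3 : eps x = -1 := by
          rw [inv_eq_iff_eq_inv] at h
          rw [h]; decide
        rw [hx.2 h3] at h1
        refine mul_right_cancel₀ (chi_ne V (B.q a)) (h1.trans h2.symm)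
  rw [H.gen] at key
  exact (key q (Subgroup.mem_top _)).1 hq

variable {S : Type} [Fintype S] [DecidableEq S] [DecidableEq Q] {H : HypC B a b eps D z k} {g : S → Q}
  {inj : Function.Injective g} {V : Vd B F} {R : Type} [Fintype R] {X : ClsW H.up g inj (2 * k) R}
  {Y : S → Prop} {wd : R → List B.L} {In : R → Prop} {h : ℕ} {A : S → Prop}

/-- `chi` is constant along the rungs over `A`. -/
def ChiC (X : ClsW H.up g inj (2 * k) R) (V : Vd B F) (A : S → Prop) : Prop :=
  ∀ r, A (X.x r) → V.chi (rfC eps (B.q a) (g (X.x r))) = V.chi (rfC eps (B.q a) (g (X.y r)))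

theorem chi_of_fin {x : Q} {w : List B.L} (h : V.chi x = V.chi (B.fin x w)) : V.chi (B.fin 1 w) = 1 := by
  rw [fin_eq_mul, map_mul] at h
  have h1 := chi_ne V x
  refine mul_left_cancel₀ h1 ?_
  rw [mul_one]; exact h.symm

theorem chiC_in (hX : FamB H g inj X Y wd In h) (hχ : ChiC X V A) {v₁ : S} (hY : Y v₁) (hv₁ : A v₁) {t : B.L}
    (ht : eps (B.q t) = 1) : V.chi (B.q t) = 1 := by
  obtain ⟨r, -, rfl, hw⟩ := hX.inn0 v₁ hY t ht 0 (by have := H.kpos; omega)
  have h1 := hχ r hv₁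
  rw [← hX.fin r, hw] at h1
  have h2 := chi_of_fin h1
  have h3 : B.fin (1 : Q) (IW H.up [] 0 t) = 1 * B.q t := rfl
  rw [h3, one_mul] at h2
  exact h2

theorem fin_CW (H : HypC B a b eps D z k) (i j : ℕ) (s : B.L) :
    B.fin (1 : Q) (CW H.up i j s) = wC B a b ^ i * sg B a s * (wC B a b ^ j)⁻¹ := by
  have h1 : B.fin (1 : Q) (H.up.str (2 * i) 1) = wC B a b ^ i := by
    rw [H.up.fin_str, H31.C_U_pow H (map_one _), one_mul]; rfl
  have h2 : B.fin (1 : Q) (H.up.str (2 * j + 1) 1) = wC B a b ^ j * B.q a := by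
    rw [H.up.fin_str, H.up.U_pow_succ', H31.C_U_pow H (map_one _), one_mul]
    refine H31.C_U_one H ?_
    rw [map_pow, H31.C_eps_w H, one_pow]
  have h3 : B.fin (1 : Q) (B.rev (H.up.str (2 * j + 1) 1)) = (wC B a b ^ j * B.q a)⁻¹ := by
    have h4 := fin_rev (B := B) (1 : Q) (H.up.str (2 * j + 1) 1)
    rw [h2, fin_eq_mul] at h4
    exact (inv_eq_of_mul_eq_one_right h4).symm
  unfold CW
  rw [fin_append, h1]
  show B.fin (wC B a b ^ i * B.q s) _ = _
  rw [fin_eq_mul, h3]
  unfold sg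
  group

theorem chiC_cross {s : B.L} {n : ℤ} {M : Set Q} {Y₀ Y₁ : S → Prop} (hX : FamX H g inj X s n M Y₀ Y₁ wd In h)
    (hχ : ChiC X V A) (hA : ∀ r, A (X.x r) ↔ A (X.y r)) {v₁ : S} (hY : Y₀ v₁) (hv₁ : A v₁)
    (hw : V.chi (wC B a b) = 1) : V.chi (sg B a s) = 1 := by
  obtain ⟨i, j, -, hc⟩ := hX.crs0
  have key : ∀ i j, V.chi (B.fin 1 (CW H.up i j s)) = V.chi (sg B a s) := by
    intro i j
    rw [fin_CW, map_mul, map_mul, map_pow, hw, one_pow, one_mul]
    have h1 := chi_inv_mul V (wC B a b ^ j)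
    rw [map_pow, hw, one_pow, mul_one] at h1
    rw [h1, mul_one]
  obtain ⟨r, hr, h1 | h1⟩ := hc v₁ hY 0 (by omega)
  · obtain ⟨rfl, hwd⟩ := h1
    have h2 := hχ r hv₁
    rw [← hX.fin r, hwd] at h2
    rw [← key i j]
    exact chi_of_fin h2
  · obtain ⟨rfl, hwd⟩ := h1
    have h2 := hχ r ((hA r).2 hv₁)
    have h3 := hX.fin r
    rw [hwd] at h3
    have h4 := fin_of_rev h3
    rw [← h4] at h2
    rw [← key i j]
    exact chi_of_fin h2.symm

end

end Pool.Agent.Lib.MP_688fd0_co.SQ4.CV.H58
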