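import Pool.Agent.Lib.MP_688fd0_co.SQ4.H58.Alg
import Pool.Agent.Lib.MP_688fd0_co.SQ4.H98.FamND

/-!
Row EQX of chapter V (type C1, plan P1). A potential of the volumes of the rungs over a closed set `A` of strands gives
points of the affine line: the averages over `A` and a sheet. They are fixed by the words of the inner rungs, and the words
of the cross rungs carry one into the other.
-/

set_option autoImplicit false

namespace Pool.Agent.Lib.MP_688fd0_co.SQ4.CV.H58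

open Pool.Agent.Lib.MP_688fd0_co.OSF Pool.Agent.Lib.MP_688fd0_co.SQ2 Pool.Agent.Lib.MP_688fd0_co.SQ3
open Pool.Agent.Lib.MP_688fd0_co.SQ4 Pool.Agent.Lib.MP_688fd0_co.SQ4.CV

section aff

variable {Q : Type} [Group Q] {B : Lb.{0, 0} Q} {F : Type} [Field F] (V : Vd B F)

theorem affw_avg {S : Type} (T : Finset S) (hT : (T.card : F) ≠ 0) (w : List B.L) (f : S → F) :
    affw V w ((∑ v ∈ T, f v) / T.card) = (∑ v ∈ T, affw V w (f v)) / T.card := by
  induction w with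
  | nil => rfl
  | cons l w ih =>
    show V.n l + V.chi (B.q l) * affw V w _ = (∑ v ∈ T, (V.n l + V.chi (B.q l) * affw V w (f v))) / T.card
    rw [ih, Finset.sum_add_distrib, Finset.sum_const, ← Finset.mul_sum, nsmul_eq_mul, add_div,
      mul_div_cancel_left₀ _ hT, mul_div_assoc]

end aff

section fin

variable {Q : Type} [Group Q] {B : Lb.{0, 0} Q}

theorem fin_eq_mul (w : List B.L) (x : Q) : B.fin x w = x * B.fin 1 w := by
  have key : ∀ (w : List B.L) (x y : Q), B.fin (x * y) w = x * B.fin y w := by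
    intro w
    induction w with
    | nil => intro x y; rfl
    | cons l w ih =>
      intro x y
      show B.fin (x * y * B.q l) w = x * B.fin (y * B.q l) w
      rw [mul_assoc, ih]
  have := key w x 1
  rwa [mul_one] at this

theorem fin_of_rev {w : List B.L} {x y : Q} (h : B.fin x (B.rev w) = y) : B.fin y w = x := by
  have h1 : B.fin (B.fin 1 w) (B.rev w) = 1 := fin_rev 1 w
  rw [fin_eq_mul] at h1 h ⊢
  rw [← h, mul_assoc, mul_eq_one_iff_eq_inv.1 h1]
  group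

end fin

section eqx

variable {S : Type} [Fintype S] [DecidableEq S] {Q : Type} [Group Q] [DecidableEq Q] {B : Lb.{0, 0} Q} {a b : B.L}
  {eps : Q →* ℤˣ} {D : Subgroup Q} {z : Q} {k : ℕ} {F : Type} [Field F]

/-- The point of the strand `v`. -/
def pnt (V : Vd B F) (eps : Q →* ℤˣ) (a : B.L) (g : S → Q) (u : F) (Φ : S → F) (v : S) : F :=
  u - V.chi (rfC eps (B.q a) (g v))⁻¹ * Φ v

open Classical in
/-- The strands of `A` in the sheet of `v₀`. -/
noncomputable def shA (D : Subgroup Q) (g : S → Q) (A : S → Prop) (v₀ : S) : Finset S :=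
  Finset.univ.filter fun v => A v ∧ Sh D (g v₀) (g v)

omit [DecidableEq S] [DecidableEq Q] in
theorem mem_shA {D : Subgroup Q} {g : S → Q} {A : S → Prop} {v₀ v : S} :
    v ∈ shA D g A v₀ ↔ A v ∧ Sh D (g v₀) (g v) := by
  classical
  unfold shA
  rw [Finset.mem_filter]
  exact ⟨fun h => h.2, fun h => ⟨Finset.mem_univ _, h⟩⟩

/-- The average of the points over `A` and the sheet of `v₀`. -/
noncomputable def avA (V : Vd B F) (eps : Q →* ℤˣ) (a : B.L) (D : Subgroup Q) (g : S → Q) (u : F) (Φ : S → F)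
    (A : S → Prop) (v₀ : S) : F :=
  (∑ v ∈ shA D g A v₀, pnt V eps a g u Φ v) / (shA D g A v₀).card

variable (H : HypC B a b eps D z k) {g : S → Q} (inj : Function.Injective g) (V : Vd B F) {u u' : F}

include H in
omit [Fintype S] [DecidableEq S] [DecidableEq Q] in
/-- The equation of one rung. -/
theorem pnt_eq {Φ : S → F} {v v' : S} {w : List B.L}
    (hf : B.fin (rfC eps (B.q a) (g v)) w = rfC eps (B.q a) (g v'))
    (hv : (evA V eps u u').vol (rfC eps (B.q a) (g v)) w = Φ v' - Φ v) :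
    affw V w (pnt V eps a g u Φ v') = pnt V eps a g u Φ v := by
  have h1 : ptA eps u u' (rfC eps (B.q a) (g v)) = u := if_pos (eps_rf H _)
  have h2 : ptA eps u u' (rfC eps (B.q a) (g v')) = u := if_pos (eps_rf H _)
  rw [evA_vol, hf, h1, h2] at hv
  have h3 := affw_sub V w (rfC eps (B.q a) (g v)) u (pnt V eps a g u Φ v')
  rw [hf] at h3
  unfold pnt at h3 ⊢
  have h4 := chi_inv_mul V (rfC eps (B.q a) (g v))
  have h5 := chi_inv_mul V (rfC eps (B.q a) (g v'))
  have h6 := chi_ne V (rfC eps (B.q a) (g v))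
  refine mul_left_cancel₀ h6 ?_
  linear_combination (-1 : F) * h3 + hv - Φ v' * h5 + Φ v * h4

omit [Fintype S] [DecidableEq S] [DecidableEq Q] in
include H inj in
theorem rf_inj {v v' : S} (h : Sh D (g v) (g v')) (h1 : rfC eps (B.q a) (g v) = rfC eps (B.q a) (g v')) : v = v' := by
  have h2 := sh_eps H h
  unfold rfC at h1
  rw [h2] at h1
  refine inj ?_
  split_ifs at h1
  · exact h1
  · exact mul_right_cancel h1

omit [DecidableEq S] [DecidableEq Q] in
include H inj in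
theorem card_shA (A : S → Prop) (v₀ : S) : (shA D g A v₀).card ≤ Nat.card D := by
  have hfin := H.fin
  have h0 : (shA D g A v₀).card = Nat.card {v // v ∈ shA D g A v₀} := by
    rw [Nat.card_eq_fintype_card, Fintype.card_coe]
  rw [h0]
  refine Nat.card_le_card_of_injective
    (fun v : {v // v ∈ shA D g A v₀} => (⟨(g v₀)⁻¹ * g v.1, (mem_shA.1 v.2).2⟩ : D)) ?_
  intro v v' h
  have h3 : (g v₀)⁻¹ * g v.1 = (g v₀)⁻¹ * g v'.1 := congrArg Subtype.val h
  exact Subtype.ext (inj (mul_left_cancel h3))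

omit [DecidableEq S] [DecidableEq Q] in
include H inj in
/-- The equation of the averages. -/
theorem avA_eq {Φ : S → F} {A : S → Prop} {v₀ v₁ : S} {w : List B.L}
    (hne : (shA D g A v₁).Nonempty) (hF : ∀ n : ℕ, 0 < n → n ≤ Nat.card D → (n : F) ≠ 0)
    (h1 : ∀ v ∈ shA D g A v₀, ∃ v' ∈ shA D g A v₁, B.fin (rfC eps (B.q a) (g v)) w = rfC eps (B.q a) (g v') ∧
      affw V w (pnt V eps a g u Φ v') = pnt V eps a g u Φ v)
    (h2 : ∀ v' ∈ shA D g A v₁, ∃ v ∈ shA D g A v₀, B.fin (rfC eps (B.q a) (g v)) w = rfC eps (B.q a) (g v')) :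
    affw V w (avA V eps a D g u Φ A v₁) = avA V eps a D g u Φ A v₀ := by
  choose! π hπ1 hπ2 hπ3 using h1
  have hfin : ∀ x : Q, B.fin x w = x * B.fin 1 w := fin_eq_mul w
  have hsame : ∀ {v v' : S} {v₂ : S}, v ∈ shA D g A v₂ → v' ∈ shA D g A v₂ →
      rfC eps (B.q a) (g v) = rfC eps (B.q a) (g v') → v = v' := fun {v v' v₂} hv hv' h =>
    rf_inj H inj ((mem_shA.1 hv).2.symm.trans (mem_shA.1 hv').2) h
  have hinj : ∀ v ∈ shA D g A v₀, ∀ v' ∈ shA D g A v₀, π v = π v' → v = v' := by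
    intro v hv v' hv' h
    refine hsame hv hv' ?_
    have e1 := hπ2 v hv
    have e2 := hπ2 v' hv'
    rw [h, ← e2, hfin, hfin (rfC eps (B.q a) (g v'))] at e1
    exact mul_right_cancel e1
  have hsurj : ∀ v' ∈ shA D g A v₁, ∃ v, ∃ hv : v ∈ shA D g A v₀, π v = v' := by
    intro v' hv'
    obtain ⟨v, hv, h⟩ := h2 v' hv'
    exact ⟨v, hv, hsame (hπ1 v hv) hv' ((hπ2 v hv).symm.trans h)⟩
  have hcard : (shA D g A v₀).card = (shA D g A v₁).card :=
    Finset.card_bij (fun v _ => π v) hπ1 (fun v hv v' hv' h => hinj v hv v' hv' h)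
      (fun v' hv' => by obtain ⟨v, hv, h⟩ := hsurj v' hv'; exact ⟨v, hv, h⟩)
  have hc : ((shA D g A v₁).card : F) ≠ 0 := hF _ (Finset.card_pos.2 hne) (card_shA H inj _ _)
  unfold avA
  rw [affw_avg V _ hc, hcard]
  congr 1
  symm
  refine Finset.sum_bij (fun v _ => π v) hπ1 (fun v hv v' hv' h => hinj v hv v' hv' h)
      (fun v' hv' => by obtain ⟨v, hv, h⟩ := hsurj v' hv'; exact ⟨v, hv, h⟩) ?_
  intro v hv
  exact (hπ3 v hv).symm

/-- The number of strands in a sheet is invertible. -/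
def CardOk (D : Subgroup Q) (F : Type) [Field F] : Prop := ∀ n : ℕ, 0 < n → n ≤ Nat.card D → (n : F) ≠ 0

variable {R : Type} [Fintype R] {X : ClsW H.up g inj (2 * k) R} {Y : S → Prop} {wd : R → List B.L} {In : R → Prop}
  {h : ℕ} {A : S → Prop} {Φ : S → F}

omit [Fintype R] in
/-- A potential on `A`. -/
def PotA (H : HypC B a b eps D z k) (inj : Function.Injective g) (X : ClsW H.up g inj (2 * k) R)
    (wd : R → List B.L) (V : Vd B F) (u u' : F) (A : S → Prop) (Φ : S → F) : Prop :=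
  ∀ r, A (X.x r) → (evA V eps u u').vol (rfC eps (B.q a) (g (X.x r))) (wd r) = Φ (X.y r) - Φ (X.x r)

/-- EQX, inner rungs. -/
theorem eqx_in (hX : FamB H g inj X Y wd In h) (hF : CardOk D F) (hA : ∀ r, A (X.x r) ↔ A (X.y r))
    (hΦ : PotA H inj X wd V u u' A Φ) {v₀ : S} (hY : ∀ v, Sh D (g v₀) (g v) → Y v) {v₁ : S}
    (hv₁ : A v₁ ∧ Sh D (g v₀) (g v₁)) : FixI H V (avA V eps a D g u Φ A v₀) := by
  have key : ∀ w : List B.L, (∀ v, Y v → ∃ r, In r ∧ X.x r = v ∧ wd r = w) →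
      affw V w (avA V eps a D g u Φ A v₀) = avA V eps a D g u Φ A v₀ := by
    intro w hw
    have h1 : ∀ v ∈ shA D g A v₀, ∃ v' ∈ shA D g A v₀,
        B.fin (rfC eps (B.q a) (g v)) w = rfC eps (B.q a) (g v') ∧
        affw V w (pnt V eps a g u Φ v') = pnt V eps a g u Φ v := by
      intro v hv
      obtain ⟨hv1, hv2⟩ := mem_shA.1 hv
      obtain ⟨r, hr1, rfl, rfl⟩ := hw v (hY v hv2)
      refine ⟨X.y r, mem_shA.2 ⟨(hA r).1 hv1, hv2.trans (hX.inner r hr1).1⟩, hX.fin r, ?_⟩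
      exact pnt_eq H V (hX.fin r) (hΦ r hv1)
    refine avA_eq H inj V ⟨v₁, mem_shA.2 hv₁⟩ hF h1 ?_
    -- surjectivity by counting
    choose! π hπ1 hπ2 hπ3 using h1
    have hmaps : Set.MapsTo π (shA D g A v₀ : Set S) (shA D g A v₀ : Set S) := fun v hv => hπ1 v hv
    have hfin : ∀ x : Q, B.fin x w = x * B.fin 1 w := fin_eq_mul w
    have hinj : Set.InjOn π (shA D g A v₀ : Set S) := by
      intro v hv v' hv' h
      refine rf_inj H inj ((mem_shA.1 hv).2.symm.trans (mem_shA.1 hv').2) ?_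
      have e1 := hπ2 v hv
      have e2 := hπ2 v' hv'
      rw [h, ← e2, hfin, hfin (rfC eps (B.q a) (g v'))] at e1
      exact mul_right_cancel e1
    intro v' hv'
    obtain ⟨v, hv, h⟩ := Finset.surj_on_of_inj_on_of_card_le (s := shA D g A v₀) (t := shA D g A v₀)
      (fun v _ => π v) (fun v hv => hπ1 v hv) (fun v v' hv hv' h => hinj hv hv' h) le_rfl v' hv'
    exact ⟨v, hv, by rw [hπ2 v hv, ← h]⟩
  exact ⟨fun t ht n hn => key _ fun v hv => hX.inn0 v hv t ht n hn, fun t ht p hp => key _ fun v hv => hX.innL v hv t ht p hp⟩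

/-- EQX, cross rungs. -/
theorem eqx_cross {s : B.L} {n : ℤ} {M : Set Q} {v₀ y₀ : S}
    (hX : FamX H g inj X s n M (fun v => Sh D (g v₀) (g v)) (fun v => Sh D (g y₀) (g v)) wd In h) (hg : DCl D g)
    (hF : CardOk D F) (hA : ∀ r, A (X.x r) ↔ A (X.y r)) (hΦ : PotA H inj X wd V u u' A Φ) {v₁ : S}
    (hv₁ : A v₁ ∧ Sh D (g v₀) (g v₁)) :
    ∃ (P₀ P₁ : F) (i j : ℕ), FixI H V P₀ ∧ FixI H V P₁ ∧ ∀ e < 2, affw V (CW H.up (i + e) (j + e) s) P₁ = P₀ := by
  obtain ⟨i, j, -, hc⟩ := hX.crs0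
  have key : ∀ e < 2, ∀ v, Sh D (g v₀) (g v) → ∃ v', Sh D (g y₀) (g v') ∧
      B.fin (rfC eps (B.q a) (g v)) (CW H.up (i + e) (j + e) s) = rfC eps (B.q a) (g v') ∧ (A v ↔ A v') ∧
      (A v → affw V (CW H.up (i + e) (j + e) s) (pnt V eps a g u Φ v') = pnt V eps a g u Φ v) := by
    intro e he v hv
    obtain ⟨r, hr, h1 | h1⟩ := hc v hv e he
    · obtain ⟨rfl, hw⟩ := h1
      refine ⟨X.y r, ?_, ?_, hA r, fun hAv => ?_⟩
      · rcases hX.cross r hr with h2 | h2
        · exact h2.2.1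
        · exact (h2.2.1.trans hv.symm).trans h2.1
      · rw [← hw]; exact hX.fin r
      · rw [← hw]; exact pnt_eq H V (hX.fin r) (hΦ r hAv)
    · obtain ⟨rfl, hw⟩ := h1
      have h3 := hX.fin r
      rw [hw] at h3
      refine ⟨X.x r, ?_, fin_of_rev h3, (hA r).symm, fun hAv => ?_⟩
      · rcases hX.cross r hr with h2 | h2
        · exact (h2.2.1.trans hv.symm).trans h2.1
        · exact h2.2.1
      · have h4 := pnt_eq H V (hX.fin r) (hΦ r ((hA r).2 hAv))
        rw [hw] at h4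
        rw [← h4, affw_rev']
  obtain ⟨v₂, hv₂, -, hA₂, -⟩ := key 0 (by omega) v₁ hv₁.2
  have h₂ : A v₂ ∧ Sh D (g y₀) (g v₂) := ⟨hA₂.1 hv₁.1, hv₂⟩
  refine ⟨avA V eps a D g u Φ A v₀, avA V eps a D g u Φ A y₀, i, j,
    eqx_in H inj V hX.toFamB hF hA hΦ (fun v hv => Or.inl hv) hv₁,
    eqx_in H inj V hX.toFamB hF hA hΦ (fun v hv => Or.inr hv) h₂, fun e he => ?_⟩
  refine avA_eq H inj V ⟨v₂, mem_shA.2 h₂⟩ hF (fun v hv => ?_) fun v' hv' => ?_
  · obtain ⟨hv1, hv2⟩ := mem_shA.1 hv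
    obtain ⟨v', h1, h2, h3, h4⟩ := key e he v hv2
    exact ⟨v', mem_shA.2 ⟨h3.1 hv1, h1⟩, h2, h4 hv1⟩
  · obtain ⟨hv1, hv2⟩ := mem_shA.1 hv'
    obtain ⟨v₃, h1, h2, h3, -⟩ := key e he v₁ hv₁.2
    have h4 := rf_mem H (h1.symm.trans hv2)
    set C := B.fin 1 (CW H.up (i + e) (j + e) s) with hC
    obtain ⟨v, h5, h6⟩ := exists_strand H hg v₁ (mem_conj H h4 C)
    obtain ⟨v'', h7, h8, h9, -⟩ := key e he v (hv₁.2.trans h5)
    have h10 : v'' = v' := by
      refine rf_inj H inj (h7.symm.trans hv2) ?_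
      rw [← h8, fin_eq_mul, h6, ← hC]
      rw [fin_eq_mul, ← hC] at h2
      rw [← h2]
      group
    rw [h10] at h8 h9
    exact ⟨v, mem_shA.2 ⟨h9.2 hv1, hv₁.2.trans h5⟩, h8⟩

end eqx

end Pool.Agent.Lib.MP_688fd0_co.SQ4.CV.H58
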