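import Pool.Agent.Lib.MP_688fd0_co.SQ4.H58.CaseN

/-!
Chapter V (type C1, plan P1): the case distinction. `hA` is the output of STK, FLIPA and EQX in a gauge with constant plain
vertical volumes, `hB` the output of FLIPB when `w` is a translation.
-/

set_option autoImplicit false

namespace Pool.Agent.Lib.MP_688fd0_co.SQ4.CV.H58

open Pool.Agent.Lib.MP_688fd0_co.OSF Pool.Agent.Lib.MP_688fd0_co.SQ2 Pool.Agent.Lib.MP_688fd0_co.SQ3
open Pool.Agent.Lib.MP_688fd0_co.SQ4 Pool.Agent.Lib.MP_688fd0_co.SQ4.CV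

section

variable {Q : Type} [Group Q] {B : Lb.{0, 0} Q} {a b : B.L} {eps : Q →* ℤˣ} {D : Subgroup Q} {z : Q} {k : ℕ}
  {F : Type} [Field F]

/-- The plain vertical volumes are constant. -/
def CstU (H : HypC B a b eps D z k) (V : Vd B F) (u u' o : F) : Prop :=
  ∀ x, (evA V eps u u').e x (H.up.up x) = o

theorem noKap (H : HypC B a b eps D z k) (V : Vd B F) (h2 : (2 : F) ≠ 0)
    (hA : ∀ u u' o : F, CstU H V u u' o → (o ≠ 0 → ∀ q, eps q = 1 → V.chi q = 1) → GoodL a b D V ∧ (∃ P, FixI H V P) ∧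
      ∀ s, EffL B a b eps D z k s → ∃ (P₀ P₁ : F) (i j : ℕ), FixI H V P₀ ∧ FixI H V P₁ ∧
        ∀ e < 2, affw V (CW H.up (i + e) (j + e) s) P₁ = P₀)
    (hB : V.chi (wC B a b) = 1 → nuW V a b ≠ 0 → (∀ t, eps (B.q t) = 1 → V.chi (B.q t) = 1) ∧
      ∀ s, EffL B a b eps D z k s → V.chi (sg B a s) = 1) : ¬ KapV V a b eps := by
  have key : (∃ u u' o : F, CstU H V u u' o ∧ (o ≠ 0 → ∀ q, eps q = 1 → V.chi q = 1)) → ¬ KapV V a b eps := by
    rintro ⟨u, u', o, hc, ho⟩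
    obtain ⟨hg, ⟨P, hP⟩, hcr⟩ := hA u u' o hc ho
    exact alg H V hg hP hcr
  by_cases hfix : ∃ u : F, nuW V a b + V.chi (B.q a * (B.q b)⁻¹) * u = u
  · obtain ⟨u, hu⟩ := hfix
    obtain ⟨u', hu'⟩ := exists_zero V H.ea H.eb u hu
    exact key ⟨u, u', 0, hu', fun h => absurd rfl h⟩
  · have hw : V.chi (B.q a * (B.q b)⁻¹) = 1 := by
      by_contra hne
      refine hfix ⟨nuW V a b / (1 - V.chi (B.q a * (B.q b)⁻¹)), ?_⟩
      have h3 : 1 - V.chi (B.q a * (B.q b)⁻¹) ≠ 0 := fun h => hne (sub_eq_zero.1 h).symm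
      field_simp
      ring
    have hn : nuW V a b ≠ 0 := fun h => hfix ⟨0, by rw [h]; ring⟩
    obtain ⟨h3, h4⟩ := hB hw hn
    have hker : ∀ q, eps q = 1 → V.chi q = 1 := fun q hq => chi_ker H V hw h3 h4 hq
    obtain ⟨u', h5, h6, -⟩ := exists_drift V H.ea H.eb (0 : F) hw h2
    refine key ⟨0, u', nuW V a b / 2, fun x => ?_, fun _ => hker⟩
    rcases Int.units_eq_one_or (eps x) with h | h
    · have h7 := h5 x h
      rw [hker x h, one_mul] at h7
      exact h7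
    · have h7 := h6 x h
      have h8 : eps (x * (B.q a)⁻¹) = 1 := by rw [map_mul, map_inv, h, H.ea]; decide
      rw [hker _ h8, one_mul] at h7
      exact h7

end

end Pool.Agent.Lib.MP_688fd0_co.SQ4.CV.H58
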