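import Pool.Agent.Lib.MP_688fd0_co.SQ4.H58.NoKap
import Pool.Agent.Lib.MP_688fd0_co.SQ4.IfaceV2

/-!
The rows GaugeS, CaseNS and AlgS of IfaceV2.
-/

set_option autoImplicit false

namespace Pool.Agent.Lib.MP_688fd0_co.SQ4.CV

open Pool.Agent.Lib.MP_688fd0_co.OSF Pool.Agent.Lib.MP_688fd0_co.SQ2 Pool.Agent.Lib.MP_688fd0_co.SQ3
open Pool.Agent.Lib.MP_688fd0_co.SQ4 Pool.Agent.Lib.MP_688fd0_co.SQ4.CV.H58

theorem gauge : GaugeS := by
  intro Q _ B a b eps D z k H p _ V hp _ hker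
  have hk := H.kpos
  have h2 : (2 : ZMod p) ≠ 0 := by
    intro h
    have h3 : ((2 : ℕ) : ZMod p) = 0 := by exact_mod_cast h
    rw [ZMod.natCast_eq_zero_iff] at h3
    have := Nat.le_of_dvd (by norm_num) h3
    omega
  by_cases hfix : ∃ u : ZMod p, nuW V a b + V.chi (B.q a * (B.q b)⁻¹) * u = u
  · obtain ⟨u, hu⟩ := hfix
    obtain ⟨u', hu'⟩ := exists_zero V H.ea H.eb u hu
    exact ⟨u, u', 0, hu'⟩
  · have hw : V.chi (B.q a * (B.q b)⁻¹) = 1 := by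
      by_contra hne
      refine hfix ⟨nuW V a b / (1 - V.chi (B.q a * (B.q b)⁻¹)), ?_⟩
      have h3 : 1 - V.chi (B.q a * (B.q b)⁻¹) ≠ 0 := fun h => hne (sub_eq_zero.1 h).symm
      field_simp
      ring
    have hn : nuW V a b ≠ 0 := fun h => hfix ⟨0, by rw [h]; ring⟩
    have hker := hker hw hn
    obtain ⟨u', h5, h6, -⟩ := exists_drift V H.ea H.eb (0 : ZMod p) hw h2
    refine ⟨0, u', nuW V a b / 2, fun x => ?_⟩
    rcases Int.units_eq_one_or (eps x) with h | h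
    · have h7 := h5 x h
      rw [hker x h, one_mul] at h7
      exact h7
    · have h7 := h6 x h
      have h8 : eps (x * (B.q a)⁻¹) = 1 := by rw [map_mul, map_inv, h, H.ea]; decide
      rw [hker _ h8, one_mul] at h7
      exact h7

section

variable {Q : Type} [Group Q] [DecidableEq Q] {B : Lb.{0, 0} Q} {a b : B.L} {eps : Q →* ℤˣ} {D : Subgroup Q} {z : Q}
  {k : ℕ} {S : Type} [Fintype S] [DecidableEq S] {H : HypC B a b eps D z k} {g : S → Q}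
  {inj : Function.Injective g} {R : Type} [Fintype R] {X : ClsW H.up g inj (2 * k) R}
  {wd : R → List B.L} {In : R → Prop} {h : ℕ} {A : S → Prop}

/-- A strand of `A` on the first side. -/
theorem h58_exists_first {s : B.L} {n : ℤ} {M : Set Q} {Y₀ Y₁ : S → Prop} (hX : FamX H g inj X s n M Y₀ Y₁ wd In h)
    (hA : ∀ r, A (X.x r) ↔ A (X.y r)) {v₀ : S} (h0 : Y₀ v₀ ∨ Y₁ v₀) (hv : A v₀) : ∃ v₁, Y₀ v₁ ∧ A v₁ := by
  obtain ⟨d, hd, hdeg⟩ := hX.deg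
  have h1 := (hdeg v₀ h0).2
  have h2 : {r | ¬ In r ∧ (v₀ = X.x r ∨ v₀ = X.y r)}.Nonempty := by
    rw [Set.nonempty_iff_ne_empty]
    intro h3
    rw [h3, Set.ncard_empty] at h1
    omega
  obtain ⟨r, hr1, hr2⟩ := h2
  have h3 : A (X.x r) := by
    rcases hr2 with rfl | rfl
    · exact hv
    · exact (hA r).2 hv
  rcases hX.cross r hr1 with h4 | h4
  · exact ⟨_, h4.1, h3⟩
  · exact ⟨_, h4.1, (hA r).1 h3⟩

end

theorem caseN : CaseNS := by
  intro Q _ _ B a b eps D z k H p _ V _ hw hX hI q hq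
  refine chi_ker H V hw ?_ ?_ hq
  · intro t ht
    by_cases he : ∃ s, EffL B a b eps D z k s
    · obtain ⟨s, hs⟩ := he
      obtain ⟨S, _, _, g, inj, R, _, X, n, M, v, y, wd, In, h, v₀, A, hD, hdis, hF, hv, hA, hcl, hchi⟩ := hX s hs
      exact chiC_in (V := V) hF.toFamB hchi (v₁ := v₀) hv hA ht
    · obtain ⟨S, _, _, g, inj, R, _, X, Y, wd, In, h, v₀, A, hD, hdis, hF, hY, hA, hcl, hchi⟩ :=
        hI fun s hs => he ⟨s, hs⟩
      refine chiC_in (V := V) hF hchi (v₁ := v₀) (hY v₀ ?_) hA ht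
      exact Sh.refl _
  · intro s hs
    obtain ⟨S, _, _, g, inj, R, _, X, n, M, v, y, wd, In, h, v₀, A, hD, hdis, hF, hv, hA, hcl, hchi⟩ := hX s hs
    obtain ⟨v₁, h1, h2⟩ := h58_exists_first hF hcl hv hA
    exact chiC_cross hF hchi hcl h1 h2 hw

theorem h58_cardOk {Q : Type} [Group Q] {B : Lb.{0, 0} Q} {a b : B.L} {eps : Q →* ℤˣ} {D : Subgroup Q} {z : Q} {k : ℕ}
    (H : HypC B a b eps D z k) {p : ℕ} [Fact p.Prime] (hp : 4 * k < p) : CardOk D (ZMod p) := by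
  intro n hn hle h
  rw [ZMod.natCast_eq_zero_iff] at h
  have h1 := Nat.le_of_dvd hn h
  have h2 := Nat.le_of_dvd H.kpos H.card
  omega

theorem algS : AlgS := by
  intro Q _ _ B a b eps D z k H p _ V hp _ hg u u' o _ hX hI
  have hF := h58_cardOk H hp
  have hcr : ∀ s, EffL B a b eps D z k s → ∃ (P₀ P₁ : ZMod p) (i j : ℕ), FixI H V P₀ ∧ FixI H V P₁ ∧
      ∀ e < 2, affw V (CW H.up (i + e) (j + e) s) P₁ = P₀ := by
    intro s hs
    obtain ⟨S, _, _, g, inj, R, _, X, n, M, v, y, wd, In, h, v₀, A, hD, hdis, hFx, hv, hA, hcl, Φ, hΦ⟩ := hX s hs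
    obtain ⟨v₁, h1, h2⟩ := h58_exists_first hFx hcl hv hA
    exact eqx_cross H inj V hFx hD hF hcl hΦ ⟨h2, h1⟩
  by_cases he : ∃ s, EffL B a b eps D z k s
  · obtain ⟨s, hs⟩ := he
    obtain ⟨P₀, P₁, i, j, h1, h2, h3⟩ := hcr s hs
    exact alg H V hg h1 hcr
  · obtain ⟨S, _, _, g, inj, R, _, X, Y, wd, In, h, v₀, A, hD, hdis, hFb, hY, hA, hcl, Φ, hΦ⟩ :=
      hI fun s hs => he ⟨s, hs⟩
    exact alg H V hg (eqx_in H inj V hFb hF hcl hΦ hY (v₁ := v₀) ⟨hA, Sh.refl _⟩) hcr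

end Pool.Agent.Lib.MP_688fd0_co.SQ4.CV
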